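import Pool.Agent.helper4.PB.Defs
import Pool.Agent.helper49.Pow.Word

/-!
# The pointwise bound for the map on the natural numbers: translation
-/

namespace Pool.Agent.helper62.PBN

open Finset Pool.Agent.helper4.PB

theorem T_cast (n : ℕ) :
    Pool.Agent.helper4.BAS.T (n : ℤ) = ((Pool.Agent.helper49.Pow.T n : ℕ) : ℤ) := by
  unfold Pool.Agent.helper4.BAS.T Pool.Agent.helper49.Pow.T
  rcases Nat.mod_two_eq_zero_or_one n with h | h
  · rw [if_pos (by omega), if_neg (by omega)]
    omega
  · rw [if_neg (by omega), if_pos h]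
    omega

theorem iter_cast (j n : ℕ) :
    Pool.Agent.helper4.BAS.T^[j] (n : ℤ) = ((Pool.Agent.helper49.Pow.T^[j] n : ℕ) : ℤ) := by
  induction j generalizing n with
  | zero => rfl
  | succ j ih => rw [Function.iterate_succ_apply, T_cast, ih, Function.iterate_succ_apply]

theorem od_cast (k n : ℕ) : odZ k (n : ℤ) = Pool.Agent.helper49.Pow.od k n := by
  induction k generalizing n with
  | zero => rfl
  | succ k ih =>
    show (if (n : ℤ) % 2 = 0 then 0 else 1) + odZ k (Pool.Agent.helper4.BAS.T (n : ℤ)) =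
      n % 2 + Pool.Agent.helper49.Pow.od k (Pool.Agent.helper49.Pow.T n)
    rw [T_cast, ih]
    rcases Nat.mod_two_eq_zero_or_one n with h | h
    · rw [if_pos (by omega), h]
    · rw [if_neg (by omega), h]

theorem hit_iff (i0 z j n : ℕ) (Y : ℝ) :
    Hit 1 i0 Y (z : ℤ) j (n : ℤ) ↔ Pool.Agent.helper49.Pow.T^[j] n = z ∧
      (∀ i < j, Y ≤ ((Pool.Agent.helper49.Pow.T^[i] n : ℕ) : ℝ)) ∧
      ∀ i, i0 ≤ i → i ≤ j →
        49 * i ≤ 100 * Pool.Agent.helper49.Pow.od i (Pool.Agent.helper49.Pow.T^[j - i] n) ∧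
        100 * Pool.Agent.helper49.Pow.od i (Pool.Agent.helper49.Pow.T^[j - i] n) ≤ 51 * i := by
  unfold Hit TypB
  refine and_congr ?_ (and_congr ?_ ?_)
  · rw [iter_cast, Nat.cast_inj]
  · refine forall_congr' fun i => forall_congr' fun _ => ?_
    rw [iter_cast, one_mul, Int.cast_natCast]
  · refine forall_congr' fun i => forall_congr' fun _ => forall_congr' fun _ => ?_
    rw [iter_cast, od_cast]

end Pool.Agent.helper62.PBN
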